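import Pool.Agent.Helper58.LC.Goals

/-!
# Project LC (MP_957450_co): goal NUM
-/

set_option autoImplicit false

open Classical Finset
open Pool.Agent.Helper58.LC

namespace Pool.Agent.Helper59.LC.NUM

/-- the exponent -/
noncomputable def qf (n : ℕ) : ℕ := 4 * Nat.clog 2 (n + 2)

/-- the cube root -/
noncomputable def af (n : ℕ) : ℕ := ⌈((n : ℝ) + 2) ^ (1 / 3 : ℝ)⌉₊

lemma clog_pos (N : ℕ) (h : 2 ≤ N) : 1 ≤ Nat.clog 2 N := Nat.clog_pos (by norm_num) h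

lemma clog_le (N : ℕ) : Nat.clog 2 N ≤ N := by
  rw [Nat.clog_le_iff_le_pow (by norm_num)]
  exact Nat.lt_two_pow_self.le

lemma cube (n : ℕ) : n + 2 ≤ af n ^ 3 := by
  have h0 : (0 : ℝ) ≤ (n : ℝ) + 2 := by positivity
  have h1 : ((n : ℝ) + 2) ^ (1 / 3 : ℝ) ≤ af n := Nat.le_ceil _
  have h2 : (((n : ℝ) + 2) ^ (1 / 3 : ℝ)) ^ 3 = (n : ℝ) + 2 := by
    rw [← Real.rpow_natCast, ← Real.rpow_mul h0]
    norm_num
  have h3 : (((n : ℝ) + 2) ^ (1 / 3 : ℝ)) ^ 3 ≤ (af n : ℝ) ^ 3 :=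
    pow_le_pow_left₀ (by positivity) h1 3
  rw [h2] at h3
  exact_mod_cast h3

lemma af_pos (n : ℕ) : 1 ≤ af n := by
  have h : 0 < ((n : ℝ) + 2) ^ (1 / 3 : ℝ) := by positivity
  exact Nat.ceil_pos.2 h

lemma af_le (n : ℕ) : af n ≤ n + 2 := by
  unfold af
  rw [Nat.ceil_le]
  have h1 : (1 : ℝ) ≤ (n : ℝ) + 2 := by
    have : (0 : ℝ) ≤ n := Nat.cast_nonneg n
    linarith
  have h2 : ((n : ℝ) + 2) ^ (1 / 3 : ℝ) ≤ ((n : ℝ) + 2) ^ (1 : ℝ) :=
    Real.rpow_le_rpow_of_exponent_le h1 (by norm_num)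
  rw [Real.rpow_one] at h2
  push_cast
  exact h2

lemma pw {x y u v : ℕ} (h1 : x ≤ 2 ^ u) (h2 : y ≤ 2 ^ v) : x * y ≤ 2 ^ (u + v) := by
  rw [pow_add]
  exact Nat.mul_le_mul h1 h2

lemma pk {x u k : ℕ} (h1 : x ≤ 2 ^ u) : x ^ k ≤ 2 ^ (u * k) := by
  rw [pow_mul]
  exact Nat.pow_le_pow_left h1 k

lemma up {x u v : ℕ} (h1 : x ≤ 2 ^ u) (h : u ≤ v) : x ≤ 2 ^ v :=
  h1.trans (Nat.pow_le_pow_right (by norm_num) h)

lemma pa {x y u : ℕ} (h1 : x ≤ 2 ^ u) (h2 : y ≤ 2 ^ u) : x + y ≤ 2 ^ (u + 1) := by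
  rw [pow_succ]
  omega

lemma cardP (B S H : ℕ) : Fintype.card (LabP B S H) = S * (S * (2 * S + 1)) * ((B + 1) * (2 * (B + 1) ^ H)) := by
  simp only [LabP, Key, Fintype.card_prod, Fintype.card_fin, Fintype.card_bool, Fintype.card_fun, Fintype.card_option]

lemma cardL (B S Z : ℕ) : Fintype.card (LabL B S Z) =
    (3 * (B + 1)) ^ S * (S * (S * (2 * S + 1)) * (B + 1) + 1) ^ Z := by
  simp only [LabL, Key, Fintype.card_prod, Fintype.card_fin, Fintype.card_bool, Fintype.card_fun, Fintype.card_option]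

/-- the main estimate -/
lemma main (n : ℕ) (L : ℕ) (hL : L = Nat.clog 2 (3 * n + 2)) :
    bnd qf af n ≤ 2 ^ (46976 * (af (3 * n) * L ^ 2)) := by
  have hL1 : 1 ≤ L := by
    rw [hL]
    exact clog_pos _ (by omega)
  have hN : 3 * n + 2 ≤ 2 ^ L := by
    rw [hL]
    exact Nat.le_pow_clog (by norm_num) _
  have hq : qf (3 * n) = 4 * L := by rw [hL]; rfl
  have ha1 := af_pos (3 * n)
  have ha2 := af_le (3 * n)
  unfold bnd
  rw [hq]
  generalize af (3 * n) = a at *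
  obtain ⟨K, hK⟩ : ∃ K, K = a * (4 * L) := ⟨_, rfl⟩
  have hK1 : 1 ≤ K := by
    rw [hK]
    exact Nat.mul_pos ha1 (by omega)
  have hKL : L ≤ K * L := Nat.le_mul_of_pos_left L hK1
  have hKL' : K ≤ K * L := Nat.le_mul_of_pos_right K hL1
  have e1 : 36 * (4 * L) * a = 36 * K := by rw [hK]; ring
  have e2 : K * L = 4 * (a * L ^ 2) := by rw [hK]; ring
  rw [← hK, e1]
  have hN1 : 3 * n + 2 + 1 ≤ 2 ^ (2 * L) := by
    have h1 : 3 * n + 2 + 1 ≤ 2 ^ (L + 1) := pa hN Nat.one_le_two_pow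
    exact up h1 (by omega)
  have hS : K + 2 ≤ 2 ^ (5 * L) := by
    have h1 : a ≤ 2 ^ L := ha2.trans hN
    have h2 : 4 * L ≤ 2 ^ (2 + L) := by
      rw [pow_add]
      exact Nat.mul_le_mul (by norm_num) Nat.lt_two_pow_self.le
    have h3 : K ≤ 2 ^ (L + (2 + L)) := by
      rw [hK]
      exact pw h1 h2
    have h4 : K + 2 ≤ 2 ^ (L + (2 + L) + 1) := pa h3 (by
      calc 2 = 2 ^ 1 := by norm_num
        _ ≤ 2 ^ (L + (2 + L)) := Nat.pow_le_pow_right (by norm_num) (by omega))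
    exact up h4 (by omega)
  have hS2 : 2 * (K + 2) + 1 ≤ 2 ^ (7 * L) := by
    have h1 : 2 * (K + 2) ≤ 2 ^ (1 + 5 * L) := pw (by norm_num) hS
    have h2 : 2 * (K + 2) + 1 ≤ 2 ^ (1 + 5 * L + 1) := pa h1 Nat.one_le_two_pow
    exact up h2 (by omega)
  have hKey : (K + 2) * ((K + 2) * (2 * (K + 2) + 1)) ≤ 2 ^ (17 * L) :=
    up (pw hS (pw hS hS2)) (by omega)
  have hP : Fintype.card (LabP (3 * n + 2) (K + 2) (36 * K)) ≤ 2 ^ (92 * (K * L)) := by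
    rw [cardP]
    have h1 : (3 * n + 2 + 1) ^ (36 * K) ≤ 2 ^ (2 * L * (36 * K)) := pk hN1
    have h2 : 2 * (3 * n + 2 + 1) ^ (36 * K) ≤ 2 ^ (1 + 2 * L * (36 * K)) := pw (by norm_num) h1
    refine up (pw hKey (pw hN1 h2)) ?_
    have h3 : 2 * L * (36 * K) = 72 * (K * L) := by ring
    rw [h3]
    omega
  have hLb : Fintype.card (LabL (3 * n + 2) (K + 2) (9 * (K + 3))) ≤ 2 ^ (732 * (K * L)) := by
    rw [cardL]
    have h1 : 3 * (3 * n + 2 + 1) ≤ 2 ^ (4 * L) := up (pw (u := 2) (by norm_num) hN1) (by omega)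
    have h2 : (3 * (3 * n + 2 + 1)) ^ (K + 2) ≤ 2 ^ (4 * L * (K + 2)) := pk h1
    have h3 : (K + 2) * ((K + 2) * (2 * (K + 2) + 1)) * (3 * n + 2 + 1) ≤ 2 ^ (19 * L) :=
      up (pw hKey hN1) (by omega)
    have h4 : (K + 2) * ((K + 2) * (2 * (K + 2) + 1)) * (3 * n + 2 + 1) + 1 ≤ 2 ^ (20 * L) :=
      up (pa h3 Nat.one_le_two_pow) (by omega)
    have h5 : ((K + 2) * ((K + 2) * (2 * (K + 2) + 1)) * (3 * n + 2 + 1) + 1) ^ (9 * (K + 3))
        ≤ 2 ^ (20 * L * (9 * (K + 3))) := pk h4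
    refine up (pw h2 h5) ?_
    have h6 : 4 * L * (K + 2) = 4 * (K * L) + 8 * L := by ring
    have h7 : 20 * L * (9 * (K + 3)) = 180 * (K * L) + 540 * L := by ring
    rw [h6, h7]
    omega
  have hsum : Fintype.card (LabP (3 * n + 2) (K + 2) (36 * K) ⊕ LabL (3 * n + 2) (K + 2) (9 * (K + 3)))
      ≤ 2 ^ (733 * (K * L)) := by
    rw [Fintype.card_sum]
    exact up (pa (up hP (by omega)) hLb) (by omega)
  have h3n : 3 * n ≤ 2 ^ (733 * (K * L)) := up (v := 733 * (K * L)) ((by omega : 3 * n ≤ 3 * n + 2).trans hN) (by omega)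
  have h2n : 2 * n + 3 ≤ 2 ^ (1468 * (K * L)) := up (v := 1468 * (K * L)) ((by omega : 2 * n + 3 ≤ 3 * n + 2 + 1).trans hN1) (by omega)
  have hm : max (3 * n) (Fintype.card (LabP (3 * n + 2) (K + 2) (36 * K) ⊕ LabL (3 * n + 2) (K + 2) (9 * (K + 3)))) + 1
      ≤ 2 ^ (734 * (K * L)) :=
    up (pa (max_le h3n hsum) Nat.one_le_two_pow) (by omega)
  have hm2 : (max (3 * n) (Fintype.card (LabP (3 * n + 2) (K + 2) (36 * K) ⊕ LabL (3 * n + 2) (K + 2) (9 * (K + 3)))) + 1) ^ 2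
      ≤ 2 ^ (1468 * (K * L)) := up (pk hm) (by omega)
  refine up (pk (max_le hm2 h2n)) ?_
  omega

theorem t : NUM := by
  refine ⟨qf, af, 46976 * 144, ?_, af_pos, ?_, cube, by norm_num, ?_⟩
  · intro n
    have := clog_pos (n + 2) (by omega)
    unfold qf
    omega
  · intro n
    have h := Nat.le_pow_clog (b := 2) (by norm_num) (n + 2)
    unfold qf
    rw [mul_comm, pow_mul]
    exact Nat.pow_le_pow_left h 4
  · intro n hn
    have hm := main n _ rfl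
    have hn' : (2 : ℝ) ≤ n := by exact_mod_cast hn
    have hn0 : (0 : ℝ) < n := by linarith
    have hlog2 : (0.69 : ℝ) < Real.log 2 := by
      have := Real.log_two_gt_d9
      linarith
    have hlogn : Real.log 2 ≤ Real.log n := Real.log_le_log (by norm_num) hn'
    have hl0 : 0 < Real.log n := by linarith
    -- the cube root
    have hr1 : (1 : ℝ) ≤ (n : ℝ) ^ (1 / 3 : ℝ) := Real.one_le_rpow (by linarith) (by norm_num)
    have ha : (af (3 * n) : ℝ) ≤ 4 * (n : ℝ) ^ (1 / 3 : ℝ) := by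
      have h1 : (af (3 * n) : ℝ) < (((3 * n : ℕ) : ℝ) + 2) ^ (1 / 3 : ℝ) + 1 := Nat.ceil_lt_add_one (by positivity)
      have h2 : (((3 * n : ℕ) : ℝ) + 2) ^ (1 / 3 : ℝ) ≤ (8 * (n : ℝ)) ^ (1 / 3 : ℝ) := by
        apply Real.rpow_le_rpow (by positivity) _ (by norm_num)
        push_cast
        linarith
      have h3 : (8 * (n : ℝ)) ^ (1 / 3 : ℝ) = 2 * (n : ℝ) ^ (1 / 3 : ℝ) := by
        rw [Real.mul_rpow (by norm_num) hn0.le]
        congr 1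
        rw [show (8 : ℝ) = 2 ^ (3 : ℝ) by norm_num, ← Real.rpow_mul (by norm_num)]
        norm_num
      linarith
    -- the logarithm
    obtain ⟨L, hL⟩ : ∃ L, L = Nat.clog 2 (3 * n + 2) := ⟨_, rfl⟩
    rw [← hL] at hm
    have hLl : (L : ℝ) ≤ 6 * Real.log n := by
      have h1 : 2 ^ (Nat.clog 2 (3 * n + 2)).pred < 3 * n + 2 := Nat.pow_pred_clog_lt_self (by norm_num) (by omega)
      rw [← hL] at h1
      have hL1 : 1 ≤ L := by
        rw [hL]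
        exact clog_pos _ (by omega)
      obtain ⟨M, rfl⟩ : ∃ M, L = M + 1 := ⟨L - 1, by omega⟩
      rw [Nat.pred_succ] at h1
      have h2 : ((2 : ℝ) ^ M) ≤ (n : ℝ) ^ 3 := by
        have h3 : ((2 ^ M : ℕ) : ℝ) ≤ ((3 * n + 2 : ℕ) : ℝ) := by exact_mod_cast h1.le
        push_cast at h3
        nlinarith [mul_nonneg (mul_nonneg (sub_nonneg.2 hn') hn0.le) (by linarith : (0:ℝ) ≤ (n : ℝ) + 2)]
      have h4 : Real.log ((2 : ℝ) ^ M) ≤ Real.log ((n : ℝ) ^ 3) := Real.log_le_log (by positivity) h2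
      rw [Real.log_pow, Real.log_pow] at h4
      push_cast at h4 ⊢
      have h5 : (M : ℝ) * 0.69 ≤ M * Real.log 2 := mul_le_mul_of_nonneg_left hlog2.le (Nat.cast_nonneg M)
      linarith
    have h1 : (bnd qf af n : ℝ) ≤ ((2 ^ (46976 * (af (3 * n) * L ^ 2)) : ℕ) : ℝ) := by exact_mod_cast hm
    refine h1.trans ?_
    push_cast
    rw [← Real.rpow_natCast]
    apply Real.rpow_le_rpow_of_exponent_le (by norm_num)
    push_cast
    have h2 : (L : ℝ) ^ 2 ≤ (6 * Real.log n) ^ 2 := pow_le_pow_left₀ (Nat.cast_nonneg L) hLl 2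
    have h3 : (af (3 * n) : ℝ) * (L : ℝ) ^ 2 ≤ (4 * (n : ℝ) ^ (1 / 3 : ℝ)) * (6 * Real.log n) ^ 2 :=
      mul_le_mul ha h2 (by positivity) (by positivity)
    calc (46976 : ℝ) * ((af (3 * n) : ℝ) * (L : ℝ) ^ 2)
        ≤ 46976 * ((4 * (n : ℝ) ^ (1 / 3 : ℝ)) * (6 * Real.log n) ^ 2) := by
          apply mul_le_mul_of_nonneg_left h3 (by norm_num)
      _ = 46976 * 144 * (n : ℝ) ^ (1 / 3 : ℝ) * Real.log n ^ 2 := by ring

end Pool.Agent.Helper59.LC.NUM
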